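import Pool.Agent.Helper44.UN.CE1

/-!
Unitary Mumford-Tate pairs, block CE3: in a simply laced system, if the roots orthogonal to a root
of value one and not vanishing on its weights are one pair, then the set of weights is symmetric.
-/

open Module

namespace UN

section comb

variable {K : Type*} [Field K] [CharZero K] {M : Type*} [AddCommGroup M] [Module K M]
  {B : LinearMap.BilinForm K M} {s : M →ₗ[K] K} {c : K} {Φ X : Finset M}

namespace CE3

theorem not_two (h : USL B s c Φ X) {x a : M} (hx : x ∈ X) (ha : a ∈ Φ) : B x a ≠ 2 := by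
  intro h2
  rcases h.small x hx a ha with h1 | h1 | h1 <;> rw [h2] at h1
  · have : (3 : K) = 0 := by linear_combination h1
    exact three_ne_zero this
  · exact two_ne_zero h1
  · have : (1 : K) = 0 := by linear_combination h1
    exact one_ne_zero this

omit [CharZero K] in
/-- roots vanishing on the weights of `β` are orthogonal to roots which do not -/
theorem orth (h : USL B s c Φ X) {β g₀ k x₀ : M} (hg₀ : g₀ ∈ Φ) (hβg : B β g₀ = 0)
    (hx₀ : x₀ ∈ X) (hxβ : B x₀ β = 1) (hxg : B x₀ g₀ ≠ 0)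
    (hk : ∀ x ∈ X, B x β = 1 → B x k = 0) : B g₀ k = 0 := by
  have hgβ : B g₀ β = 0 := by rw [h.symm, hβg]
  have h1 := CR2.refl_mem h hx₀ hg₀
  have h2 : B (x₀ - B x₀ g₀ • g₀) β = 1 := by
    rw [map_sub, LinearMap.sub_apply, map_smul, LinearMap.smul_apply, smul_eq_mul, hxβ, hgβ,
      mul_zero, sub_zero]
  have h3 := hk _ h1 h2
  rw [map_sub, LinearMap.sub_apply, map_smul, LinearMap.smul_apply, smul_eq_mul, hk x₀ hx₀ hxβ,
    zero_sub, neg_eq_zero] at h3
  exact (mul_eq_zero.1 h3).resolve_left hxg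

/-- two weights of `β` are separated by a root orthogonal to `β` -/
theorem sep0 (h : USL B s c Φ X) {β x y : M} (hβ : β ∈ Φ) (hx : x ∈ X) (hy : y ∈ X)
    (hxy : x ≠ y) (hxβ : B x β = 1) (hyβ : B y β = 1) :
    ∃ g ∈ Φ, B β g = 0 ∧ B x g = 1 ∧ B y g = -1 := by
  obtain ⟨g, hg, hxg, hyg⟩ := h.sep x hx y hy hxy
  refine ⟨g, hg, ?_, hxg, hyg⟩
  by_cases h1 : β = g
  · exfalso
    rw [← h1, hyβ] at hyg
    have : (2 : K) = 0 := by linear_combination hyg
    exact two_ne_zero this
  by_cases h2 : β = -g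
  · exfalso
    rw [h2, map_neg, hxg] at hxβ
    have : (2 : K) = 0 := by linear_combination -hxβ
    exact two_ne_zero this
  rcases h.pair β hβ g hg h1 h2 with h3 | h3 | h3
  · exfalso
    apply not_two h hx (CR2.add_mem h hβ hg h3)
    rw [map_add, hxβ, hxg]
    norm_num
  · exact h3
  · exfalso
    apply not_two h hy (h.sub β hβ g hg h3)
    rw [map_sub, hyβ, hyg]
    norm_num

/-- every neighbour of `β` is not orthogonal to `g₀` -/
theorem nbr (h : USL B s c Φ X) {β g₀ x₀ : M} (hβ : β ∈ Φ) (hsβ : s β = 1)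
    (hg₀ : g₀ ∈ Φ) (hβg : B β g₀ = 0)
    (hx₀ : x₀ ∈ X) (hxβ : B x₀ β = 1) (hxg : B x₀ g₀ ≠ 0)
    (hu : ∀ g ∈ Φ, B β g = 0 → (∃ x ∈ X, B x β = 1 ∧ B x g ≠ 0) → g = g₀ ∨ g = -g₀)
    {d : M} (hd : d ∈ Φ) (hβd : B β d = 1) : B d g₀ ≠ 0 := by
  intro h0
  -- the case of adjacent neighbours
  have key : ∀ d' ∈ Φ, B β d' = 1 → B d d' = 1 → B g₀ d' = 0 := by
    intro d' hd' hβd' hdd'
    have hk : d - d' ∈ Φ := h.sub d hd d' hd' hdd'
    have hβk : B β (d - d') = 0 := by rw [map_sub, hβd, hβd', sub_self]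
    have hdk : B d (d - d') = 1 := by rw [map_sub, h.two d hd, hdd']; norm_num
    have h1 : ∀ x ∈ X, B x β = 1 → B x (d - d') = 0 := by
      by_contra hcon
      push Not at hcon
      rcases hu _ hk hβk hcon with h2 | h2
      · rw [h2, h0] at hdk
        exact zero_ne_one hdk
      · rw [h2, map_neg, h0, neg_zero] at hdk
        exact zero_ne_one hdk
    have h2 := orth h hg₀ hβg hx₀ hxβ hxg h1
    rw [map_sub, h.symm g₀ d, h0, zero_sub, neg_eq_zero] at h2
    exact h2
  have hgβ : B g₀ β = 0 := by rw [h.symm, hβg]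
  have h1 : g₀ = 0 := by
    apply h.perp hβ hsβ hgβ
    intro d' hd' hβd'
    by_cases h1 : d = d'
    · rw [← h1, h.symm]; exact h0
    by_cases h2 : d = -d'
    · exfalso
      rw [h2, map_neg, hβd'] at hβd
      have : (2 : K) = 0 := by linear_combination -hβd
      exact two_ne_zero this
    rcases h.pair d hd d' hd' h1 h2 with h3 | h3 | h3
    · have h4 := CR2.add_mem h hd hd' h3
      have h5 : B β (d + d') = 2 := by rw [map_add, hβd, hβd']; norm_num
      have h6 : β = d + d' := by
        by_contra h7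
        by_cases h8 : β = -(d + d')
        · have h9 := h.two β hβ
          rw [h8] at h5
          rw [h8, map_neg, h5] at h9
          have : (4 : K) = 0 := by linear_combination -h9
          norm_num at this
        · rcases h.pair β hβ _ h4 h7 h8 with h9 | h9 | h9 <;> rw [h5] at h9
          · have : (3 : K) = 0 := by linear_combination h9
            exact three_ne_zero this
          · exact two_ne_zero h9
          · have : (1 : K) = 0 := by linear_combination h9
            exact one_ne_zero this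
      have h7 : B g₀ β = B g₀ d + B g₀ d' := by rw [h6, map_add]
      rw [hgβ, h.symm g₀ d, h0, zero_add] at h7
      exact h7.symm
    · have h4 : β - d' ∈ Φ := h.sub β hβ d' hd' hβd'
      have h5 := key (β - d') h4 (by rw [map_sub, h.two β hβ, hβd']; norm_num)
        (by rw [map_sub, h.symm d β, hβd, h3, sub_zero])
      rw [map_sub, hgβ, zero_sub, neg_eq_zero] at h5
      exact h5
    · exact key d' hd' hβd' h3
  exact CR2.ne_zero h hg₀ h1

/-- the claim -/
theorem claim (h : USL B s c Φ X) {β g x : M} (hβ : β ∈ Φ) (hsβ : s β = 1)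
    (hg : g ∈ Φ) (hβg : B β g = 0) (hn : ∀ d ∈ Φ, B β d = 1 → B d g ≠ 0)
    (hx : x ∈ X) (hxβ : B x β = 1) (hxg : B x g = 1) : -x ∈ X := by
  have hgβ : B g β = 0 := by rw [h.symm, hβg]
  have hm : (2 : K) • x - β - g = 0 := by
    apply h.perp hβ hsβ
    · rw [map_sub, map_sub, map_smul, LinearMap.sub_apply, LinearMap.sub_apply,
        LinearMap.smul_apply, smul_eq_mul, hxβ, h.two β hβ, hgβ]
      norm_num
    · intro d hd hβd
      have hy : x - g ∈ X := h.xsub x hx g hg hxg
      have hβd' : β - d ∈ Φ := h.sub β hβ d hd hβd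
      have e : B ((2 : K) • x - β - g) d = 2 * B x d - 1 - B d g := by
        rw [map_sub, map_sub, map_smul, LinearMap.sub_apply, LinearMap.sub_apply,
          LinearMap.smul_apply, smul_eq_mul, hβd, h.symm g d]
      rw [e]
      have e2 : B (x - g) d = B x d - B d g := by
        rw [map_sub, LinearMap.sub_apply, h.symm g d]
      have e3 : B (x - g) (β - d) = 1 - B x d + B d g := by
        rw [map_sub, e2, map_sub, LinearMap.sub_apply, hxβ, hgβ]; ring
      have e4 : B x (β - d) = 1 - B x d := by rw [map_sub, hxβ]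
      have h1 : d ≠ g := by
        rintro rfl
        rw [hβg] at hβd
        exact zero_ne_one hβd
      have h2 : d ≠ -g := by
        rintro rfl
        rw [map_neg, hβg, neg_zero] at hβd
        exact zero_ne_one hβd
      have n1 := not_two h hy hβd'
      have n2 := not_two h hx hβd'
      rw [e3] at n1
      rw [e4] at n2
      rcases h.pair d hd g hg h1 h2 with h3 | h3 | h3
      · rw [h3] at n1 e2 ⊢
        rcases h.small x hx d hd with h4 | h4 | h4
        · exfalso
          apply n2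
          rw [h4]
          norm_num
        · rw [h4]
          norm_num
        · exfalso
          apply not_two h hy hd
          rw [e2, h4]
          norm_num
      · exact absurd h3 (hn d hd hβd)
      · rw [h3] at n1 e2 ⊢
        rcases h.small x hx d hd with h4 | h4 | h4
        · exfalso
          rcases h.small _ hy d hd with h6 | h6 | h6 <;> rw [e2, h4] at h6
          · have : (1 : K) = 0 := by linear_combination -h6
            exact one_ne_zero this
          · have : (2 : K) = 0 := by linear_combination -h6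
            exact two_ne_zero this
          · have : (3 : K) = 0 := by linear_combination -h6
            exact three_ne_zero this
        · exfalso
          apply n1
          rw [h4]
          norm_num
        · rw [h4]
          norm_num
  have h1 : x - β ∈ X := h.xsub x hx β hβ hxβ
  have h2 : x - β - g ∈ X := h.xsub _ h1 g hg (by
    rw [map_sub, LinearMap.sub_apply, hxg, hβg, sub_zero])
  have e : -x = x - β - g := by
    have h3 : x - β - g = ((2 : K) • x - β - g) - x := by rw [two_smul]; abel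
    rw [h3, hm, zero_sub]
  rw [e]
  exact h2

omit [CharZero K] in
/-- symmetry of the weights of a root passes to adjacent roots -/
theorem step (h : USL B s c Φ X) {a b : M} (ha : a ∈ Φ) (hb : b ∈ Φ) (hab : B a b = 1)
    (hC : ∀ x ∈ X, B x a = 1 → -x ∈ X) : ∀ x ∈ X, B x b = 1 → -x ∈ X := by
  intro x hx hxb
  have hg : a - b ∈ Φ := h.sub a ha b hb hab
  have hba : B b a = 1 := by rw [h.symm, hab]
  have h1 := CR2.refl_mem h hx hg
  have hgg := h.two _ hg
  have hga : B (a - b) a = 1 := by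
    rw [map_sub, LinearMap.sub_apply, h.two a ha, hba]; norm_num
  have h2 : B (x - B x (a - b) • (a - b)) a = 1 := by
    rw [map_sub, LinearMap.sub_apply, map_smul, LinearMap.smul_apply, smul_eq_mul, hga, map_sub,
      hxb]
    ring
  have h3 := hC _ h1 h2
  have h4 := CR2.refl_mem h h3 hg
  have h5 : B (-(x - B x (a - b) • (a - b))) (a - b) = B x (a - b) := by
    have h6 : ∀ t : K, B (x - t • (a - b)) (a - b) = B x (a - b) - t * 2 := by
      intro t
      rw [map_sub B x, LinearMap.sub_apply, map_smul B t, LinearMap.smul_apply, smul_eq_mul, hgg]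
    rw [map_neg, LinearMap.neg_apply, h6]
    ring
  rw [h5] at h4
  have e : -x = -(x - B x (a - b) • (a - b)) - B x (a - b) • (a - b) := by abel
  rw [e]
  exact h4

end CE3

/-- CE3: the second alternative forces `X = -X`. -/
theorem USL.neg_of_pair (h : USL B s c Φ X) {α β g₀ : M} (hα : α ∈ Φ) (hβ : β ∈ Φ)
    (hsα : s α = 1) (hsβ : s β = 1) (hαβ : B β α = 0)
    (hr : ∃ x ∈ X, ∃ y ∈ X, x ≠ y ∧ B x β = 1 ∧ B y β = 1) (hg₀ : g₀ ∈ Φ) (hβg : B β g₀ = 0)
    (hu : ∀ g ∈ Φ, B β g = 0 → (∃ x ∈ X, B x β = 1 ∧ B x g ≠ 0) → g = g₀ ∨ g = -g₀) :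
    ∀ x ∈ X, -x ∈ X := by
  obtain ⟨x₁, hx₁, x₂, hx₂, hne, hx₁β, hx₂β⟩ := hr
  -- the root `g₀` does not vanish on a weight of `β`
  have hx₀ : ∃ x₀ ∈ X, B x₀ β = 1 ∧ B x₀ g₀ ≠ 0 := by
    obtain ⟨g, hg, hβg', h1, h2⟩ := CE3.sep0 h hβ hx₁ hx₂ hne hx₁β hx₂β
    refine ⟨x₁, hx₁, hx₁β, ?_⟩
    rcases hu g hg hβg' ⟨x₁, hx₁, hx₁β, by rw [h1]; exact one_ne_zero⟩ with h3 | h3
    · rw [← h3, h1]; exact one_ne_zero
    · intro h4
      rw [h3, map_neg, h4, neg_zero] at h1
      exact zero_ne_one h1
  obtain ⟨x₀, hx₀, hx₀β, hx₀g⟩ := hx₀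
  have hn : ∀ d ∈ Φ, B β d = 1 → B d g₀ ≠ 0 := fun d hd hβd =>
    CE3.nbr h hβ hsβ hg₀ hβg hx₀ hx₀β hx₀g hu hd hβd
  -- the weights of `β`
  have hC : ∀ x ∈ X, B x β = 1 → -x ∈ X := by
    intro x hx hxβ
    have hy : ∃ y ∈ X, x ≠ y ∧ B y β = 1 := by
      by_cases h1 : x = x₁
      · exact ⟨x₂, hx₂, by rw [h1]; exact hne, hx₂β⟩
      · exact ⟨x₁, hx₁, h1, hx₁β⟩
    obtain ⟨y, hy, hxy, hyβ⟩ := hy
    obtain ⟨g, hg, hβg', h1, h2⟩ := CE3.sep0 h hβ hx hy hxy hxβ hyβ
    refine CE3.claim h hβ hsβ hg hβg' ?_ hx hxβ h1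
    intro d hd hβd
    rcases hu g hg hβg' ⟨x, hx, hxβ, by rw [h1]; exact one_ne_zero⟩ with h3 | h3
    · rw [h3]; exact hn d hd hβd
    · rw [h3, map_neg, neg_ne_zero]; exact hn d hd hβd
  have hall : ∀ a ∈ Φ, s a = 1 → ∀ x ∈ X, B x a = 1 → -x ∈ X := by
    intro a ha hsa
    exact h.conn {a | ∀ x ∈ X, B x a = 1 → -x ∈ X} ⟨β, hβ, hsβ, hC⟩
      (fun a ha b hb _ _ hab hD => CE3.step h ha hb hab hD) a ha hsa
  intro x hx
  by_cases h1 : ∃ a ∈ Φ, s a = 1 ∧ B x a ≠ 0
  · obtain ⟨a, ha, hsa, hxa⟩ := h1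
    rcases h.small x hx a ha with h2 | h2 | h2
    · have h3 := CR2.xadd_mem h hx ha h2
      have h4 := hall a ha hsa _ h3 (by
        rw [map_add, LinearMap.add_apply, h2, h.two a ha]; norm_num)
      have h5 := CR2.xadd_mem h h4 ha (by
        rw [map_neg, LinearMap.neg_apply, map_add, LinearMap.add_apply, h2, h.two a ha]
        norm_num)
      have e : -x = -(x + a) + a := by abel
      rw [e]
      exact h5
    · exact absurd h2 hxa
    · exact hall a ha hsa x hx h2
  · push Not at h1
    have h2 := h.hit x h1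
    rw [h2, neg_zero, ← h2]
    exact hx

end comb

end UN
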