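import Pool.Agent.Helper16.UN.CR2

/-!
Unitary Mumford-Tate pairs, block CE1: in a simply laced system two roots of value one are joined
by a path of length at most two, and a vector orthogonal to a root of value one and to all its
neighbours is zero.
-/

open Module

namespace UN

section comb

variable {K : Type*} [Field K] [CharZero K] {M : Type*} [AddCommGroup M] [Module K M]
  {B : LinearMap.BilinForm K M} {s : M →ₗ[K] K} {c : K} {Φ X : Finset M}

/-- CE1a -/
theorem USL.diam (h : USL B s c Φ X) {β : M} (hβ : β ∈ Φ) (hsβ : s β = 1) {b : M} (hb : b ∈ Φ)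
    (hsb : s b = 1) : b = β ∨ B β b = 1 ∨ ∃ a ∈ Φ, s a = 1 ∧ B β a = 1 ∧ B a b = 1 := by
  refine h.conn {b | b = β ∨ B β b = 1 ∨ ∃ a ∈ Φ, s a = 1 ∧ B β a = 1 ∧ B a b = 1}
    ⟨β, hβ, hsβ, Or.inl rfl⟩ ?_ b hb hsb
  intro a ha b hb hsa hsb hab hD
  show b = β ∨ B β b = 1 ∨ ∃ a ∈ Φ, s a = 1 ∧ B β a = 1 ∧ B a b = 1
  rcases hD with hD | hD | ⟨e, he, hse, hβe, hea⟩
  · rw [hD] at hab
    exact Or.inr (Or.inl hab)
  · exact Or.inr (Or.inr ⟨a, ha, hsa, hD, hab⟩)
  · by_cases hbβ : b = β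
    · exact Or.inl hbβ
    by_cases hbe : b = e
    · rw [← hbe] at hβe
      exact Or.inr (Or.inl hβe)
    rcases CR2.f2 h he hb hse hsb (Ne.symm hbe) with h1 | h1
    · rcases CR2.f2 h hβ hb hsβ hsb (Ne.symm hbβ) with h2 | h2
      · by_cases haβ : a = β
        · rw [haβ] at hab
          exact Or.inr (Or.inl hab)
        rcases CR2.f2 h hβ ha hsβ hsa (Ne.symm haβ) with h3 | h3
        · have h4 : β - e ∈ Φ := h.sub β hβ e he hβe
          have h5 : β - e + a ∈ Φ := CR2.add_mem h h4 ha (by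
            rw [map_sub, LinearMap.sub_apply, h3, hea]; ring)
          refine Or.inr (Or.inr ⟨β - e + a, h5, ?_, ?_, ?_⟩)
          · rw [map_add, map_sub, hsβ, hse, hsa]; ring
          · rw [map_add, map_sub, h.two β hβ, hβe, h3]; norm_num
          · rw [map_add, map_sub, LinearMap.add_apply, LinearMap.sub_apply, h2, h1, hab]; ring
        · exact Or.inr (Or.inr ⟨a, ha, hsa, h3, hab⟩)
      · exact Or.inr (Or.inl h2)
    · exact Or.inr (Or.inr ⟨e, he, hse, hβe, h1⟩)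

/-- CE1b -/
theorem USL.perp (h : USL B s c Φ X) {β : M} (hβ : β ∈ Φ) (hsβ : s β = 1) {m : M}
    (h0 : B m β = 0) (h1 : ∀ d ∈ Φ, B β d = 1 → B m d = 0) : m = 0 := by
  apply h.hit
  intro b hb hsb
  rcases h.diam hβ hsβ hb hsb with h2 | h2 | ⟨a, ha, hsa, hβa, hab⟩
  · rw [h2]; exact h0
  · exact h1 b hb h2
  · by_cases hbβ : b = β
    · rw [hbβ]; exact h0
    rcases CR2.f2 h hβ hb hsβ hsb (Ne.symm hbβ) with h2 | h2
    · have h3 := h1 (a - b) (h.sub a ha b hb hab) (by rw [map_sub, hβa, h2, sub_zero])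
      rw [map_sub, h1 a ha hβa, zero_sub, neg_eq_zero] at h3
      exact h3
    · exact h1 b hb h2

end comb

end UN
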